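import Pool.Agent.helper78.EQ.Spec

set_option autoImplicit false

open Complex MeasureTheory Set Metric

namespace Pool.Agent.EQ

open Pool.Agent.helper6.LD

private lemma helper65_c1_norm (n : ℕ) : ‖c1 n‖ * (n : ℝ) ^ (-(2 : ℝ)) = (n : ℝ) ^ (-(2 : ℝ)) := by
  unfold c1
  rcases eq_or_ne n 0 with h | h
  · rw [h]
    simp
  · rw [if_neg h]
    simp

private lemma helper65_c1_summable :
    Summable (fun n : ℕ => ‖c1 n‖ * (n : ℝ) ^ (-(2 : ℝ))) := by
  simp_rw [helper65_c1_norm]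
  exact Real.summable_nat_rpow.mpr (by norm_num)

private lemma helper65_c1_Ds (s : ℂ) (hs : s.re = 2) : riemannZeta s = Ds c1 s := by
  rw [zeta_eq_tsum_one_div_nat_cpow (by rw [hs]; norm_num)]
  unfold Ds
  apply tsum_congr
  intro n
  have hs0 : s ≠ 0 := by
    intro h
    rw [h] at hs
    norm_num at hs
  unfold c1
  rcases eq_or_ne n 0 with h | h
  · rw [h]
    simp [Complex.zero_cpow hs0]
  · rw [if_neg h, one_mul, Complex.cpow_neg, one_div]

theorem FW1 (hSHF : SHF_stmt) : FW1_stmt := by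
  intro ε A hε hA
  obtain ⟨C, hC, hS⟩ := hSHF (1 / 2) (by norm_num) le_rfl
  obtain ⟨W, hW⟩ : ∃ W : ℝ, W = ∑' n : ℕ, ‖c1 n‖ * (n : ℝ) ^ (-(2 : ℝ)) := ⟨_, rfl⟩
  have hW0 : 0 ≤ W := by
    rw [hW]
    exact tsum_nonneg (fun n => by positivity)
  refine ⟨max 3 ((C * (2 + W) + 1) ^ (1 / ε)), 2 * A + ε + 2, le_max_left _ _, by linarith, ?_⟩
  intro X σ t hX hσ hσ1 ht htX hz N hN hNX
  have hX3 : 3 ≤ X := (le_max_left _ _).trans hX
  have hX0 : 0 < X := by linarith
  have hX1 : 1 ≤ X := by linarith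
  have hXε : C * (2 + W) < X ^ ε := by
    have h1 : (C * (2 + W) + 1) ^ (1 / ε) ≤ X := (le_max_right _ _).trans hX
    have h2 : ((C * (2 + W) + 1) ^ (1 / ε)) ^ ε ≤ X ^ ε :=
      Real.rpow_le_rpow (by positivity) h1 hε.le
    rw [← Real.rpow_mul (by positivity), one_div_mul_cancel hε.ne', Real.rpow_one] at h2
    linarith
  have hlog : 1 ≤ Real.log X := by
    rw [Real.le_log_iff_exp_le hX0]
    have := Real.exp_one_lt_d9
    linarith
  have hK : 1 ≤ 2 * A + ε + 2 := by linarith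
  have hU : 1 ≤ (2 * A + ε + 2) * Real.log X := by nlinarith
  have hN0 : 0 < N := by linarith
  have hXε1 : 1 ≤ X ^ ε := Real.one_le_rpow hX1 hε.le
  have hNσ : 1 ≤ N ^ σ := Real.one_le_rpow hN (by linarith)
  have hmain := hS c1 riemannZeta σ t ((2 * A + ε + 2) * Real.log X) (X ^ ε) W N hσ (by linarith)
    hU hN (by positivity) (by simp [c1]) helper65_c1_summable hW.ge
    (fun s hs => helper65_c1_Ds s hs) (by
      intro s h1 h2 h3
      refine ⟨?_, hz s h1 h3⟩
      apply differentiableAt_riemannZeta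
      intro hs1
      rw [hs1] at h3
      simp only [Complex.one_im, zero_sub, abs_neg] at h3
      have h4 : t ≤ |t| := le_abs_self t
      nlinarith)
  have hexp : Real.exp (-((2 * A + ε + 2) * Real.log X)) = X ^ (-(2 * A + ε + 2)) := by
    rw [Real.rpow_def_of_pos hX0]
    congr 1
    ring
  have hN2 : N ^ (2 : ℕ) ≤ X ^ (2 * A) := by
    calc N ^ (2 : ℕ) ≤ (X ^ A) ^ (2 : ℕ) := by gcongr
      _ = X ^ (2 * A) := by
        rw [← Real.rpow_natCast, ← Real.rpow_mul hX0.le]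
        congr 1
        push_cast
        ring
  have h5 : N ^ (2 : ℕ) * (X ^ ε + W) * Real.exp (-((2 * A + ε + 2) * Real.log X)) ≤
      (1 + W) * (N ^ σ * X ^ ε) := by
    rw [hexp]
    calc N ^ (2 : ℕ) * (X ^ ε + W) * X ^ (-(2 * A + ε + 2))
        ≤ X ^ (2 * A) * ((1 + W) * X ^ ε) * X ^ (-(2 * A + ε + 2)) := by
          gcongr
          nlinarith
      _ = (1 + W) * (X ^ (2 * A) * X ^ ε * X ^ (-(2 * A + ε + 2))) := by ring
      _ = (1 + W) * X ^ (-2 : ℝ) := by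
          rw [← Real.rpow_add hX0, ← Real.rpow_add hX0]
          congr 2
          ring
      _ ≤ (1 + W) * (N ^ σ * X ^ ε) := by
          have h6 : X ^ (-2 : ℝ) ≤ 1 := Real.rpow_le_one_of_one_le_of_nonpos hX1 (by norm_num)
          have h7 : 1 ≤ N ^ σ * X ^ ε := by nlinarith
          gcongr
          exact h6.trans h7
  calc ‖S c1 N t‖ ≤ C * (N ^ σ * X ^ ε + N ^ (2 : ℕ) * (X ^ ε + W) *
        Real.exp (-((2 * A + ε + 2) * Real.log X))) := hmain
    _ ≤ C * (N ^ σ * X ^ ε + (1 + W) * (N ^ σ * X ^ ε)) := by gcongr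
    _ = C * (2 + W) * (N ^ σ * X ^ ε) := by ring
    _ < X ^ ε * (N ^ σ * X ^ ε) := by
        gcongr
    _ = N ^ σ * X ^ (2 * ε) := by
        rw [show 2 * ε = ε + ε by ring, Real.rpow_add hX0]
        ring

end Pool.Agent.EQ
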