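import Pool.Agent.helper78.EQ.Spec

set_option autoImplicit false

open Complex MeasureTheory Set Metric

namespace Pool.Agent.EQ

open Pool.Agent.helper6.LD

private lemma helper65_upper (f : ℂ → ℂ) (c : ℂ) (R v L : ℝ) (hR : 0 < R) (hv : 0 ≤ v)
    (hL : 0 ≤ L) (hf : AnalyticOnNhd ℂ f (closedBall c R))
    (hbd : ∀ z ∈ sphere c R, ‖f z‖ ≤ Real.exp L) :
    Real.circleAverage (fun z => Real.log ‖f z‖) c R ≤ v + L / (2 * Real.pi) *
      (volume {θ : ℝ | θ ∈ Ioc 0 (2 * Real.pi) ∧ Real.exp v ≤ ‖f (circleMap c R θ)‖}).toReal := by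
  have hpi : 0 < 2 * Real.pi := by positivity
  have hcont : Continuous (fun θ : ℝ => f (circleMap c R θ)) := by
    apply ContinuousOn.comp_continuous (s := closedBall c R) hf.continuousOn
      (continuous_circleMap c R)
    intro θ
    exact sphere_subset_closedBall (circleMap_mem_sphere c hR.le θ)
  obtain ⟨E, hE⟩ : ∃ E : Set ℝ, E = {θ : ℝ | Real.exp v ≤ ‖f (circleMap c R θ)‖} := ⟨_, rfl⟩
  have hEm : MeasurableSet E := by
    rw [hE]
    exact (isClosed_le continuous_const hcont.norm).measurableSet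
  have hset : {θ : ℝ | θ ∈ Ioc 0 (2 * Real.pi) ∧ Real.exp v ≤ ‖f (circleMap c R θ)‖} =
      Ioc 0 (2 * Real.pi) ∩ E := by
    rw [hE]; ext θ; simp
  rw [hset, Real.circleAverage_def]
  have hint : IntervalIntegrable (fun θ => Real.log ‖f (circleMap c R θ)‖) volume 0
      (2 * Real.pi) := by
    have h1 : MeromorphicOn f (sphere c |R|) := by
      rw [abs_of_pos hR]
      exact (hf.mono sphere_subset_closedBall).meromorphicOn
    exact h1.circleIntegrable_log_norm
  have hconstL : IntegrableOn (fun _ : ℝ => L) (Ioc 0 (2 * Real.pi)) volume :=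
    integrableOn_const (by rw [Real.volume_Ioc]; exact ENNReal.ofReal_ne_top)
  have hconstv : IntegrableOn (fun _ : ℝ => v) (Ioc 0 (2 * Real.pi)) volume :=
    integrableOn_const (by rw [Real.volume_Ioc]; exact ENNReal.ofReal_ne_top)
  have hind : IntegrableOn (E.indicator (fun _ : ℝ => L)) (Ioc 0 (2 * Real.pi)) volume :=
    Integrable.indicator hconstL hEm
  have h2 : ∫ θ in (0 : ℝ)..(2 * Real.pi), Real.log ‖f (circleMap c R θ)‖ ≤
      ∫ θ in (0 : ℝ)..(2 * Real.pi), (v + E.indicator (fun _ : ℝ => L) θ) := by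
    apply intervalIntegral.integral_mono_on hpi.le hint
    · rw [intervalIntegrable_iff_integrableOn_Ioc_of_le hpi.le]
      exact Integrable.add hconstv hind
    · intro θ _
      by_cases hθ : θ ∈ E
      · rw [Set.indicator_of_mem hθ]
        have hθ' : Real.exp v ≤ ‖f (circleMap c R θ)‖ := by rw [hE] at hθ; exact hθ
        have h3 : 0 < ‖f (circleMap c R θ)‖ := (Real.exp_pos v).trans_le hθ'
        have h4 : Real.log ‖f (circleMap c R θ)‖ ≤ L := by
          rw [Real.log_le_iff_le_exp h3]
          exact hbd _ (circleMap_mem_sphere c hR.le θ)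
        linarith
      · rw [Set.indicator_of_notMem hθ]
        have hθ' : ‖f (circleMap c R θ)‖ < Real.exp v := by
          rw [hE] at hθ
          simpa using! hθ
        rcases (norm_nonneg (f (circleMap c R θ))).eq_or_lt with h0 | h0
        · rw [← h0, Real.log_zero]; linarith
        · have : Real.log ‖f (circleMap c R θ)‖ ≤ v := by
            rw [Real.log_le_iff_le_exp h0]
            exact hθ'.le
          linarith
  have h3 : ∫ θ in (0 : ℝ)..(2 * Real.pi), (v + E.indicator (fun _ : ℝ => L) θ) =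
      2 * Real.pi * v + L * (volume (Ioc 0 (2 * Real.pi) ∩ E)).toReal := by
    rw [intervalIntegral.integral_of_le hpi.le, integral_add hconstv hind,
      setIntegral_indicator hEm, setIntegral_const, setIntegral_const]
    simp only [Measure.real, Real.volume_Ioc, sub_zero, smul_eq_mul]
    rw [ENNReal.toReal_ofReal hpi.le]
    ring
  rw [h3] at h2
  calc (2 * Real.pi)⁻¹ • ∫ θ in (0 : ℝ)..(2 * Real.pi), Real.log ‖f (circleMap c R θ)‖
      ≤ (2 * Real.pi)⁻¹ * (2 * Real.pi * v + L * (volume (Ioc 0 (2 * Real.pi) ∩ E)).toReal) := by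
        rw [smul_eq_mul]
        gcongr
    _ = v + L / (2 * Real.pi) * (volume (Ioc 0 (2 * Real.pi) ∩ E)).toReal := by
        field_simp

theorem JNA : JNA_stmt := by
  intro f c r R v L Zs hr hrR hv hL hf hfc hbd hZs
  have hR : 0 < R := hr.trans hrR
  have habs : |R| = R := abs_of_pos hR
  have hf' : AnalyticOnNhd ℂ f (closedBall c |R|) := by rwa [habs]
  have hJ := hf'.circleAverage_log_norm hR.ne' hfc
  rw [habs] at hJ
  have hup := helper65_upper f c R v L hR hv hL hf hbd
  rw [hJ] at hup
  refine le_trans ?_ hup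
  gcongr
  set D := MeromorphicOn.divisor f (closedBall c R) with hD
  have hDnn : ∀ u, 0 ≤ D u := fun u => (MeromorphicOn.AnalyticOnNhd.divisor_nonneg hf) u
  have hfin : (Function.support D).Finite := D.finiteSupport (isCompact_closedBall c R)
  have hterm : ∀ u, 0 ≤ (D u : ℝ) * Real.log (R * ‖c - u‖⁻¹) := by
    intro u
    by_cases hu : u ∈ closedBall c R
    · apply mul_nonneg (by exact_mod_cast hDnn u)
      rcases eq_or_ne c u with h | h
      · rw [← h]; simp
      · apply Real.log_nonneg
        have h1 : 0 < ‖c - u‖ := norm_pos_iff.mpr (sub_ne_zero.mpr h)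
        rw [← div_eq_mul_inv, one_le_div h1]
        rw [mem_closedBall, dist_comm, dist_eq_norm] at hu
        exact hu
    · have : D u = 0 := by
        by_contra h0
        exact hu (D.supportWithinDomain h0)
      rw [this]; simp
  have hsub : ∀ u ∈ Zs, 1 ≤ D u := by
    intro u hu
    obtain ⟨hfu, hub⟩ := hZs u hu
    have huR : u ∈ closedBall c R := closedBall_subset_closedBall hrR.le hub
    have h1 : D u = ((analyticOrderAt f u).map (↑)).untop₀ :=
      MeromorphicOn.AnalyticOnNhd.divisor_apply hf huR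
    have hcR : c ∈ closedBall c R := mem_closedBall_self hR.le
    have h2 : analyticOrderAt f c ≠ ⊤ := by
      rw [(hf c hcR).analyticOrderAt_eq_zero.mpr hfc]
      simp
    have h3 : analyticOrderAt f u ≠ ⊤ :=
      hf.analyticOrderAt_ne_top_of_isPreconnected (convex_closedBall c R).isPreconnected hcR huR h2
    have h4 : analyticOrderAt f u ≠ 0 := by
      intro h5
      exact (hf u huR).analyticOrderAt_eq_zero.mp h5 hfu
    obtain ⟨n, hn⟩ := ENat.ne_top_iff_exists.mp h3
    rw [h1, ← hn]
    have hn0 : n ≠ 0 := by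
      intro h5
      rw [h5] at hn
      exact h4 (by rw [← hn]; rfl)
    have : ((((n : ℕ) : ℕ∞).map ((↑) : ℕ → ℤ)).untop₀ : ℤ) = (n : ℤ) := by
      rfl
    rw [this]
    exact_mod_cast Nat.one_le_iff_ne_zero.mpr hn0
  have hlogpos : 0 ≤ Real.log (R / r) := by
    apply Real.log_nonneg
    rw [one_le_div hr]
    exact hrR.le
  classical
  have hsupp : Function.support (fun u => (D u : ℝ) * Real.log (R * ‖c - u‖⁻¹)) ⊆
      ↑(hfin.toFinset ∪ Zs) := by
    intro u hu
    rw [Finset.coe_union]
    left
    rw [Set.Finite.coe_toFinset]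
    intro h0
    apply hu
    show (D u : ℝ) * _ = 0
    rw [h0]; simp
  rw [finsum_eq_sum_of_support_subset _ hsupp]
  calc (Zs.card : ℝ) * Real.log (R / r) = ∑ _u ∈ Zs, Real.log (R / r) := by
        rw [Finset.sum_const, nsmul_eq_mul]
    _ ≤ ∑ u ∈ Zs, (D u : ℝ) * Real.log (R * ‖c - u‖⁻¹) := by
        apply Finset.sum_le_sum
        intro u hu
        obtain ⟨hfu, hub⟩ := hZs u hu
        have h1 : (1 : ℝ) ≤ D u := by exact_mod_cast hsub u hu
        have hcu : c ≠ u := by
          intro h
          rw [← h] at hfu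
          exact hfc hfu
        have h2 : 0 < ‖c - u‖ := norm_pos_iff.mpr (sub_ne_zero.mpr hcu)
        have h3 : ‖c - u‖ ≤ r := by
          rw [mem_closedBall, dist_comm, dist_eq_norm] at hub
          exact hub
        have h4 : Real.log (R / r) ≤ Real.log (R * ‖c - u‖⁻¹) := by
          apply Real.log_le_log (by positivity)
          rw [← div_eq_mul_inv]
          gcongr
        nlinarith
    _ ≤ ∑ u ∈ hfin.toFinset ∪ Zs, (D u : ℝ) * Real.log (R * ‖c - u‖⁻¹) := by
        apply Finset.sum_le_sum_of_subset_of_nonneg Finset.subset_union_right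
        intro u _ _
        exact hterm u

end Pool.Agent.EQ
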