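import Pool.Agent.helper78.EQ.Spec

set_option autoImplicit false

open Complex MeasureTheory Set Metric

namespace Pool.Agent.EQ

open Pool.Agent.helper6.LD

theorem TRF : TRF_stmt := by
  intro θ b E F 𝒢 hθ hb hE htriv hmain hG ε hε
  obtain ⟨hcont, hanti, hhalf, hone⟩ := hb
  set β := b (1 / 2) with hβ
  have hβ1 : 1 ≤ β := hhalf
  have hhm : (1 / 2 : ℝ) ∈ Icc (1 / 2 : ℝ) 1 := ⟨le_rfl, by norm_num⟩
  have h1m : (1 : ℝ) ∈ Icc (1 / 2 : ℝ) 1 := ⟨by norm_num, le_rfl⟩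
  have huc : UniformContinuousOn b (Icc (1 / 2) 1) :=
    isCompact_Icc.uniformContinuousOn_of_continuous hcont
  rw [Metric.uniformContinuousOn_iff] at huc
  obtain ⟨d, hd, hbd⟩ := huc (ε / 4) (by positivity)
  obtain ⟨δ, hδ, hδ4, hδd⟩ : ∃ δ : ℝ, 0 < δ ∧ δ ≤ 1 / 4 ∧ δ < d :=
    ⟨min (1 / 4) (d / 2), lt_min (by norm_num) (by linarith), min_le_left _ _,
      lt_of_le_of_lt (min_le_right _ _) (by linarith)⟩
  obtain ⟨η, hη, hη1, hη2⟩ : ∃ η : ℝ, 0 < η ∧ η ≤ 1 ∧ η * (3 + β) ≤ ε / 4 := by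
    refine ⟨min 1 (ε / (4 * (3 + β))), lt_min one_pos (by positivity), min_le_left _ _, ?_⟩
    calc min 1 (ε / (4 * (3 + β))) * (3 + β) ≤ ε / (4 * (3 + β)) * (3 + β) := by
          gcongr
          exact min_le_right _ _
      _ = ε / 4 := by field_simp
  obtain ⟨C₁, hC₁, h1⟩ := htriv ε η hε hη
  obtain ⟨G, hGG, ε', C, hε', hε'η, hC, h2⟩ := hmain ε δ η hε hδ hδ4 hη
  obtain ⟨C', hC', h3⟩ := hG G hGG ε' hε'
  have hCm : (1 : ℝ) ≤ max C 1 := le_max_right _ _
  have hCm0 : (0 : ℝ) < max C 1 := by positivity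
  refine ⟨C₁ + C * (1 + C' * (1 + C) * (max C 1) ^ β), by positivity, ?_⟩
  intro σ T H hσ hσ1 hT hH hTH
  obtain ⟨X, hX⟩ : ∃ X : ℝ, X = T + H + 2 := ⟨_, rfl⟩
  rw [← hX]
  have hX1 : 1 ≤ X := by linarith
  have hX0 : 0 < X := by linarith
  have hHX : H ≤ X := by linarith
  have hH0 : 0 < H := by linarith
  have hσm : σ ∈ Icc (1 / 2 : ℝ) 1 := ⟨hσ, hσ1⟩
  have hbσ0 : 0 ≤ b σ := hone.trans (hanti hσm h1m hσ1)
  have hHε : H ^ (b σ + ε / 4) ≤ H ^ b σ * X ^ (ε / 4) := by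
    rw [Real.rpow_add hH0]
    gcongr
  have hC2pos : 0 < C' * (1 + C) * (max C 1) ^ β := by positivity
  rcases lt_or_ge σ (1 / 2 + δ) with hlt | hge
  · have hdist : b (1 / 2) ≤ b σ + ε / 4 := by
      have := hbd (1 / 2) hhm σ hσm (by
        rw [Real.dist_eq, abs_sub_comm, abs_of_nonneg (by linarith)]; linarith)
      rw [Real.dist_eq] at this
      linarith [(abs_lt.mp this).2]
    have e1 : H ≤ H ^ (b σ + ε / 4) := by
      calc H = H ^ (1 : ℝ) := (Real.rpow_one H).symm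
        _ ≤ H ^ (b σ + ε / 4) := Real.rpow_le_rpow_of_exponent_le hH (by linarith)
    calc F ε σ T H ≤ C₁ * X ^ η * H := by rw [hX]; exact h1 σ T H hσ hσ1 hT hH
      _ ≤ C₁ * X ^ η * (H ^ b σ * X ^ (ε / 4)) := by gcongr; exact e1.trans hHε
      _ = C₁ * X ^ (η + ε / 4) * H ^ b σ := by rw [Real.rpow_add hX0]; ring
      _ ≤ C₁ * X ^ ε * H ^ b σ := by
          have e3 : X ^ (η + ε / 4) ≤ X ^ ε :=
            Real.rpow_le_rpow_of_exponent_le hX1 (by nlinarith)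
          gcongr
      _ ≤ (C₁ + C * (1 + C' * (1 + C) * (max C 1) ^ β)) * X ^ ε * H ^ b σ := by
          gcongr
          have : 0 < C * (1 + C' * (1 + C) * (max C 1) ^ β) := by positivity
          linarith
  · obtain ⟨T', H', hT', hT'T, hHH', hH'le, h4⟩ := h2 σ T H hge hσ1 hT hH
    rw [← hX] at hH'le h4
    have hH'1 : 1 ≤ H' := hH.trans hHH'
    have hH'0 : 0 < H' := by linarith
    have hsd : σ - δ ∈ Icc (1 / 2 : ℝ) 1 := ⟨by linarith, by linarith⟩
    have hT'H' : T' ^ θ ≤ H' := (Real.rpow_le_rpow hT' hT'T hθ).trans (hTH.trans hHH')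
    have hXη : X ^ η ≤ X := by
      calc X ^ η ≤ X ^ (1 : ℝ) := Real.rpow_le_rpow_of_exponent_le hX1 hη1
        _ = X := Real.rpow_one X
    have hsum : T' + H' + 2 ≤ (1 + C) * X ^ (2 : ℝ) := by
      have e0 : X ^ (2 : ℝ) = X * X := by
        rw [show (2 : ℝ) = 1 + 1 by norm_num, Real.rpow_add hX0, Real.rpow_one]
      rw [e0]
      have e1 : C * X ^ η * H ≤ C * X * X := by gcongr
      nlinarith
    have hsum1 : 1 ≤ (1 + C) * X ^ (2 : ℝ) := by linarith
    have hsum2 : (T' + H' + 2) ^ ε' ≤ (1 + C) * X ^ (2 * η) := by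
      calc (T' + H' + 2) ^ ε' ≤ ((1 + C) * X ^ (2 : ℝ)) ^ ε' :=
            Real.rpow_le_rpow (by linarith) hsum hε'.le
        _ ≤ ((1 + C) * X ^ (2 : ℝ)) ^ η := Real.rpow_le_rpow_of_exponent_le hsum1 hε'η
        _ = (1 + C) ^ η * X ^ (2 * η) := by
            rw [Real.mul_rpow (by linarith) (by positivity), ← Real.rpow_mul hX0.le]
        _ ≤ (1 + C) ^ (1 : ℝ) * X ^ (2 * η) := by
            gcongr
            linarith
        _ = (1 + C) * X ^ (2 * η) := by rw [Real.rpow_one]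
    have hbsd0 : 0 ≤ b (σ - δ) := hone.trans (hanti hsd h1m (by linarith))
    have hbsdβ : b (σ - δ) ≤ β := hanti hhm hsd (by linarith)
    have hbsd : b (σ - δ) ≤ b σ + ε / 4 := by
      have := hbd (σ - δ) hsd σ hσm (by
        rw [Real.dist_eq, abs_sub_comm, abs_of_nonneg (by linarith)]; linarith)
      rw [Real.dist_eq] at this
      linarith [(abs_lt.mp this).2]
    have hH'b : H' ^ b (σ - δ) ≤ (max C 1) ^ β * X ^ (η * β) * (H ^ b σ * X ^ (ε / 4)) := by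
      calc H' ^ b (σ - δ) ≤ (max C 1 * X ^ η * H) ^ b (σ - δ) := by
            apply Real.rpow_le_rpow hH'0.le _ hbsd0
            refine hH'le.trans ?_
            gcongr
            exact le_max_left _ _
        _ = (max C 1) ^ b (σ - δ) * X ^ (η * b (σ - δ)) * H ^ b (σ - δ) := by
            rw [Real.mul_rpow (by positivity) hH0.le, Real.mul_rpow hCm0.le (by positivity),
              ← Real.rpow_mul hX0.le]
        _ ≤ (max C 1) ^ β * X ^ (η * β) * H ^ (b σ + ε / 4) := by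
            have e1 : (max C 1) ^ b (σ - δ) ≤ (max C 1) ^ β :=
              Real.rpow_le_rpow_of_exponent_le hCm hbsdβ
            have e2 : X ^ (η * b (σ - δ)) ≤ X ^ (η * β) :=
              Real.rpow_le_rpow_of_exponent_le hX1 (by gcongr)
            have e3 : H ^ b (σ - δ) ≤ H ^ (b σ + ε / 4) :=
              Real.rpow_le_rpow_of_exponent_le hH hbsd
            gcongr
        _ ≤ (max C 1) ^ β * X ^ (η * β) * (H ^ b σ * X ^ (ε / 4)) := by gcongr
    have hB := h4 (C' * (T' + H' + 2) ^ ε' * H' ^ b (σ - δ)) (by positivity) (by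
      intro u hu hu1
      have hum : u ∈ Icc (1 / 2 : ℝ) 1 := ⟨hsd.1.trans hu, hu1⟩
      refine (h3 u T' H' hum.1 hu1 hT' hH'1 hT'H').trans ?_
      have : H' ^ b u ≤ H' ^ b (σ - δ) :=
        Real.rpow_le_rpow_of_exponent_le hH'1 (hanti hsd hum hu)
      gcongr)
    have hE' : H ^ E σ ≤ H ^ b σ := Real.rpow_le_rpow_of_exponent_le hH (hE σ hσ hσ1)
    have hexp : 3 * η + η * β + ε / 4 ≤ ε := by nlinarith
    calc F ε σ T H ≤ C * X ^ η * (H ^ E σ + C' * (T' + H' + 2) ^ ε' * H' ^ b (σ - δ)) := hB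
      _ ≤ C * X ^ η * (H ^ b σ + C' * ((1 + C) * X ^ (2 * η)) *
            ((max C 1) ^ β * X ^ (η * β) * (H ^ b σ * X ^ (ε / 4)))) := by gcongr
      _ = C * (X ^ η + C' * (1 + C) * (max C 1) ^ β * (X ^ η * X ^ (2 * η) * X ^ (η * β) *
            X ^ (ε / 4))) * H ^ b σ := by ring
      _ = C * (X ^ η + C' * (1 + C) * (max C 1) ^ β * X ^ (3 * η + η * β + ε / 4)) *
            H ^ b σ := by
          rw [← Real.rpow_add hX0, ← Real.rpow_add hX0, ← Real.rpow_add hX0]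
          congr 5
          ring
      _ ≤ C * (X ^ ε + C' * (1 + C) * (max C 1) ^ β * X ^ ε) * H ^ b σ := by
          have e1 : X ^ η ≤ X ^ ε := Real.rpow_le_rpow_of_exponent_le hX1 (by nlinarith)
          have e2 : X ^ (3 * η + η * β + ε / 4) ≤ X ^ ε :=
            Real.rpow_le_rpow_of_exponent_le hX1 hexp
          gcongr
      _ = C * (1 + C' * (1 + C) * (max C 1) ^ β) * X ^ ε * H ^ b σ := by ring
      _ ≤ (C₁ + C * (1 + C' * (1 + C) * (max C 1) ^ β)) * X ^ ε * H ^ b σ := by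
          gcongr
          linarith

end Pool.Agent.EQ
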